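import Pool.Agent.Lib.MP_ea09ae_al.Main

/-!
# The Diophantine problem of the monoid `⟨a, b, c ∣ abc = 1⟩` is decidable

The letters are `a = 0`, `b = 1`, `c = 2` in `Fin 3`; variables are indexed by `ℕ`.
A finite system of equations with constants is a list of pairs of words over `Fin 3 ⊕ ℕ`.
-/

namespace Pool.Agent.Results.MP_ea09ae_al.AbcDecidable

/-- The single defining relation `abc = 1` on the free monoid on three letters. -/
def abcRelation : FreeMonoid (Fin 3) → FreeMonoid (Fin 3) → Prop := fun u w =>
  u = FreeMonoid.of 0 * FreeMonoid.of 1 * FreeMonoid.of 2 ∧ w = 1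

/-- The one-relator monoid `⟨a, b, c ∣ abc = 1⟩`. -/
abbrev M₂ : Type := PresentedMonoid abcRelation

/-- A finite system of equations with constants: a list of equations, each a pair of words in
the letters `Fin 3` (constants) and the variables `ℕ`. -/
abbrev System : Type := List (List (Fin 3 ⊕ ℕ) × List (Fin 3 ⊕ ℕ))

/-- The value in the monoid of a word when the variable `k` takes the value `σ k`. -/
def value (σ : ℕ → M₂) (w : List (Fin 3 ⊕ ℕ)) : M₂ :=
  (w.map (Sum.elim (fun i => PresentedMonoid.of abcRelation i) σ)).prod

/-- The system has a common solution in the monoid. -/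
def HasSolution (S : System) : Prop :=
  ∃ σ : ℕ → M₂, ∀ e ∈ S, value σ e.1 = value σ e.2

/-- The Diophantine problem of `⟨a, b, c ∣ abc = 1⟩` is decidable. -/
theorem result : ComputablePred HasSolution :=
  Pool.Agent.Lib.MP_ea09ae_al.computablePred_solvable

end Pool.Agent.Results.MP_ea09ae_al.AbcDecidable
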